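import Mathlib

/-!
A Galois stable set of `n` elements of valuation `a / n` in the algebraic closure of the `p`-adic
numbers, with `n` prime to `a` and `p`, is permuted cyclically by the automorphisms fixing the
`n`-th roots of unity.
-/

set_option autoImplicit false

namespace Pool.Agent.P.MP_ee618e_ag.TO

open Polynomial Finset IsUltrametricDist

section ultra

variable {Ω : Type*} [NormedField Ω] [IsUltrametricDist Ω]

theorem sub_lt {x y z : Ω} {r : ℝ} (h1 : ‖x - y‖ < r) (h2 : ‖y - z‖ < r) : ‖x - z‖ < r := by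
  rw [← sub_add_sub_cancel x y z]
  exact (norm_add_le_max _ _).trans_lt (max_lt h1 h2)

theorem coeff_le {r : ℝ} (hr : 0 ≤ r) (s : Finset Ω) (h : ∀ w ∈ s, ‖w‖ ≤ r) (i : ℕ) :
    ‖(∏ w ∈ s, (X - C w)).coeff i‖ * r ^ i ≤ r ^ s.card := by
  classical
  induction s using Finset.induction_on generalizing i with
  | empty => rcases i with _ | i <;> simp [coeff_one]
  | insert w s hw ih =>
    have h1 := ih fun v hv => h v (mem_insert_of_mem hv)
    have h2 : ∀ i, ‖w * (∏ w ∈ s, (X - C w)).coeff i‖ * r ^ i ≤ r ^ (s.card + 1) := fun i => by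
      rw [norm_mul, mul_assoc, pow_succ']
      exact mul_le_mul (h w (mem_insert_self _ _)) (h1 i) (by positivity) hr
    rw [prod_insert hw, card_insert_of_notMem hw, sub_mul, coeff_sub, coeff_C_mul]
    rcases i with _ | i
    · simpa using h2 0
    · rw [coeff_X_mul, sub_eq_add_neg]
      refine (mul_le_mul_of_nonneg_right (norm_add_le_max _ _) (by positivity)).trans ?_
      rw [max_mul_of_nonneg _ _ (by positivity), norm_neg]
      refine max_le ?_ (h2 _)
      rw [pow_succ, ← mul_assoc, pow_succ]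
      exact mul_le_mul_of_nonneg_right (h1 i) hr

theorem root_sep {n : ℕ} (hn : ‖(n : Ω)‖ = 1) {ζ : Ω} (h : ζ ^ n = 1) (h1 : ‖ζ - 1‖ < 1) :
    ζ = 1 := by
  by_contra h2
  have h3 : ∑ i ∈ range n, (ζ ^ i - 1) = -n := by
    rw [sum_sub_distrib, geom_sum_eq h2, h]
    simp
  have h4 := norm_sum_le_of_forall_le_of_nonneg (s := range n) (f := fun i => ζ ^ i - 1)
    (norm_nonneg (ζ - 1)) fun i _ => by
      induction i with
      | zero => simp
      | succ i ih =>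
        have h5 : ‖ζ‖ ≤ 1 := by
          simpa using (norm_add_le_max (ζ - 1) 1).trans (max_le h1.le norm_one.le)
        rw [show ζ ^ (i + 1) - 1 = ζ * (ζ ^ i - 1) + (ζ - 1) by ring]
        refine (norm_add_le_max _ _).trans (max_le ?_ le_rfl)
        rw [norm_mul]
        exact (mul_le_of_le_one_left (norm_nonneg _) h5).trans
          (ih (mem_range.2 ((Nat.lt_succ_self i).trans (mem_range.1 ‹_›))))
  rw [h3, norm_neg, hn] at h4
  exact h1.not_ge h4

omit [IsUltrametricDist Ω] in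
theorem norm_root {n : ℕ} (n0 : n ≠ 0) {ζ : Ω} (h : ζ ^ n = 1) : ‖ζ‖ = 1 := by
  have h1 := congrArg norm h
  rwa [norm_pow, norm_one, pow_eq_one_iff_of_nonneg (norm_nonneg _) n0] at h1

end ultra

variable {p : ℕ} [hp : Fact p.Prime]

theorem norm_fixed {n : ℕ} (hn : ‖(n : PadicAlgCl p)‖ = 1) {ω : PadicAlgCl p}
    (hω : IsPrimitiveRoot ω n) {x : PadicAlgCl p} (x0 : x ≠ 0)
    (hx : ∀ γ : PadicAlgCl p ≃ₐ[ℚ_[p]] PadicAlgCl p, γ ω = ω → γ x = x) :
    ∃ k : ℤ, ‖x‖ = (p : ℝ) ^ k := by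
  have n0 : n ≠ 0 := fun h => by simp [h] at hn
  let K := IntermediateField.adjoin ℚ_[p] {ω}
  have hK : ω ∈ K := IntermediateField.mem_adjoin_simple_self _ ω
  have : FiniteDimensional ℚ_[p] K :=
    IntermediateField.adjoin.finiteDimensional (Algebra.IsIntegral.isIntegral ω)
  have hxK : x ∈ K := by
    rw [← InfiniteGalois.fixedField_fixingSubgroup K]
    exact fun γ => hx γ (γ.2 ⟨ω, hK⟩)
  have nσ : ∀ (σ : K →ₐ[ℚ_[p]] PadicAlgCl p) (y : K), ‖σ y‖ = ‖(y : PadicAlgCl p)‖ := fun σ y =>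
    congrArg spectralValue ((minpoly.algHom_eq σ σ.injective y).trans
      (minpoly.algHom_eq K.val K.val.injective y).symm)
  have nω := norm_root n0 hω.pow_eq_one
  let y : ℕ → ℚ_[p] := fun j => Algebra.trace ℚ_[p] K (⟨x, hxK⟩ * ⟨ω, hK⟩ ^ j)
  have h1 : ∀ j, ‖y j‖ ≤ ‖x‖ := fun j => by
    rw [← PadicAlgCl.norm_extends, trace_eq_sum_embeddings]
    exact norm_sum_le_of_forall_le_of_nonneg (norm_nonneg _) fun σ _ => by simp [nσ, nω]
  have h2 : ∑ j ∈ range n, algebraMap _ _ (y j) / ω ^ j = n * x := by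
    classical
    simp only [y, trace_eq_sum_embeddings, sum_div, map_mul, map_pow, mul_div_assoc, ← div_pow]
    rw [sum_comm, Fintype.sum_eq_single K.val fun σ hσ => ?_]
    · simp [hω.ne_zero n0]
    · rw [← mul_sum, geom_sum_eq, div_pow, ← map_pow, hω.pow_eq_one,
        show (⟨ω, hK⟩ : K) ^ n = 1 from Subtype.ext hω.pow_eq_one]
      · simp
      · intro h
        exact hσ (IntermediateField.adjoin_algHom_ext _ fun z hz => by
          rw [Set.mem_singleton_iff] at hz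
          subst hz
          exact (div_eq_one_iff_eq (hω.ne_zero n0)).1 h)
  obtain ⟨j, -, hj⟩ := exists_norm_finsetSum_le_of_nonempty (nonempty_range_iff.2 n0)
    fun j => algebraMap _ (PadicAlgCl p) (y j) / ω ^ j
  rw [h2, norm_mul, hn, one_mul, norm_div, norm_pow, nω, one_pow, div_one,
    PadicAlgCl.norm_extends] at hj
  have h3 := le_antisymm hj (h1 j)
  exact ⟨_, h3.trans (Padic.norm_eq_zpow_neg_valuation fun h => x0 (by simpa [h] using h3))⟩

theorem tame_action {n a : ℕ} (hn : ¬ p ∣ n) (ha : n.Coprime a) {Φ : Finset (PadicAlgCl p)}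
    (card : Φ.card = n) (val : ∀ z ∈ Φ, ‖z‖ ^ n = ‖(p : PadicAlgCl p)‖ ^ a)
    (stable : ∀ γ : PadicAlgCl p ≃ₐ[ℚ_[p]] PadicAlgCl p, ∀ z ∈ Φ, γ z ∈ Φ) :
    ∃ Γ : Set (PadicAlgCl p ≃ₐ[ℚ_[p]] PadicAlgCl p),
      (∀ γ ∈ Γ, ∀ δ ∈ Γ, ∀ z ∈ Φ, γ (δ z) = δ (γ z)) ∧ ∀ z ∈ Φ, ∀ w ∈ Φ, ∃ γ ∈ Γ, γ z = w := by
  classical
  have n0 : n ≠ 0 := fun h => hn (h ▸ dvd_zero p)
  have : NeZero n := ⟨n0⟩
  have p1 : (1 : ℝ) < p := by exact_mod_cast hp.out.one_lt
  have hn' : ‖(n : PadicAlgCl p)‖ = 1 := by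
    rw [← map_natCast (algebraMap ℚ_[p] _), PadicAlgCl.norm_extends,
      Padic.norm_natCast_eq_one_iff]
    exact (hp.out.coprime_iff_not_dvd).2 hn
  have np : ‖(p : PadicAlgCl p)‖ = (p : ℝ)⁻¹ := by
    rw [← map_natCast (algebraMap ℚ_[p] _), PadicAlgCl.norm_extends,
      Padic.norm_p]
  obtain ⟨ω, hω⟩ := HasEnoughRootsOfUnity.exists_primitiveRoot (PadicAlgCl p) n
  obtain ⟨o, ho⟩ : Φ.Nonempty := card_pos.1 (by omega)
  have nr : ∀ z ∈ Φ, ‖z‖ = ‖o‖ := fun z hz =>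
    (pow_left_inj₀ (norm_nonneg _) (norm_nonneg _) n0).1 ((val z hz).trans (val o ho).symm)
  have r0 : 0 < ‖o‖ := norm_pos_iff.2 fun h => by
    have h1 := val o ho
    rw [h, norm_zero, zero_pow n0, np] at h1
    exact h1.not_lt (by positivity)
  have nγ : ∀ (γ : PadicAlgCl p ≃ₐ[ℚ_[p]] PadicAlgCl p) x, ‖γ x‖ = ‖x‖ := fun γ x =>
    (spectralNorm_eq_of_equiv γ x).symm
  have dv : ∀ (x : PadicAlgCl p) (k : ℕ), ‖x‖ = ‖o‖ ^ k →
      (∀ γ : PadicAlgCl p ≃ₐ[ℚ_[p]] PadicAlgCl p, γ ω = ω → γ x = x) → n ∣ k := fun x k h1 h2 => by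
    obtain ⟨j, hj⟩ := norm_fixed hn' hω (norm_pos_iff.1 (h1 ▸ pow_pos r0 k)) h2
    have h3 := congrArg (· ^ n) (hj.symm.trans h1)
    simp only [← pow_mul, mul_comm k n] at h3
    rw [pow_mul, val o ho, np, ← pow_mul, ← zpow_natCast, ← zpow_mul, inv_pow, ← zpow_natCast,
      ← zpow_neg, zpow_right_inj₀ (by positivity) p1.ne'] at h3
    refine ha.dvd_of_dvd_mul_left (Int.natCast_dvd_natCast.1 ⟨-j, ?_⟩)
    linear_combination h3
  have pr : ∀ (γ : PadicAlgCl p ≃ₐ[ℚ_[p]] PadicAlgCl p) (S : Finset (PadicAlgCl p)),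
      (∀ z ∈ S, γ z ∈ S) → S.image γ = S := fun γ S h =>
    eq_of_subset_of_card_le (image_subset_iff.2 h) (card_image_of_injective S γ.injective).ge
  refine ⟨{γ | γ ω = ω}, fun γ hγ δ hδ z hz => ?_, fun z hz w hw => ?_⟩
  · let f := ∏ w ∈ Φ, (X - C w)
    have hf : f.natDegree = n := by rw [natDegree_finsetProd_X_sub_C_eq_card, card]
    have h1 : ∀ ζ : PadicAlgCl p, ζ ^ n = 1 → ∃ w ∈ Φ, ‖ζ * z - w‖ < ‖o‖ := fun ζ hζ => by
      have nζ := norm_root n0 hζ
      have h2 : f.eval (ζ * z) = ∑ i ∈ range (n + 1), f.coeff i * z ^ i * (ζ ^ i - 1) := by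
        have h3 : f.eval z = 0 := by rw [eval_prod]; exact prod_eq_zero hz (by simp)
        rw [← sub_zero (f.eval _), ← h3, eval_eq_sum_range, eval_eq_sum_range, hf,
          ← sum_sub_distrib]
        exact sum_congr rfl fun i _ => by ring
      obtain ⟨i, hi, h3⟩ := exists_norm_finsetSum_le_of_nonempty (nonempty_range_add_one (n := n))
        fun i => f.coeff i * z ^ i * (ζ ^ i - 1)
      have h4 : ‖f.coeff i * z ^ i * (ζ ^ i - 1)‖ < ‖o‖ ^ n := by
        by_cases h4 : n ∣ i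
        · obtain ⟨c, rfl⟩ := h4
          simp [pow_mul, hζ, pow_pos r0]
        · have h5 := coeff_le r0.le Φ (fun w hw => (nr w hw).le) i
          rw [card] at h5
          refine lt_of_le_of_lt ?_ (h5.lt_of_ne fun h6 => h4 ?_)
          · rw [norm_mul, norm_mul, norm_pow, nr z hz, sub_eq_add_neg]
            exact mul_le_of_le_one_right (by positivity)
              ((norm_add_le_max _ _).trans (by simp [nζ]))
          · have h7 : i ≤ n := Nat.lt_succ_iff.1 (mem_range.1 hi)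
            refine (Nat.dvd_sub_iff_right h7 dvd_rfl).1 (dv (f.coeff i) _ ?_ fun γ _ => ?_)
            · rw [pow_sub₀ _ r0.ne' h7, ← h6, mul_inv_cancel_right₀ (pow_pos r0 i).ne']
            · have h8 : f.map (γ : PadicAlgCl p →+* PadicAlgCl p) = f := by
                conv_rhs => rw [show f = ∏ w ∈ Φ.image γ, (X - C w) by rw [pr γ Φ (stable γ)],
                  prod_image γ.injective.injOn]
                simp [f, Polynomial.map_prod]
              conv_rhs => rw [← h8, coeff_map]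
              rfl
      by_contra h5
      push Not at h5
      refine (h3.trans_lt h4).not_ge ?_
      rw [← h2, eval_prod, norm_prod, ← card, ← prod_const]
      exact prod_le_prod (fun _ _ => r0.le) fun w hw => by simpa using h5 w hw
    choose! d hd h2 using h1
    have h3 : ∀ ζ ξ : PadicAlgCl p, ζ ^ n = 1 → ξ ^ n = 1 → ‖d ζ - d ξ‖ < ‖o‖ → ζ = ξ := by
      intro ζ ξ hζ hξ h
      have h4 := sub_lt (sub_lt (h2 ζ hζ) h) ((norm_sub_rev _ _).trans_lt (h2 ξ hξ))
      have ξ0 : ξ ≠ 0 := fun h => by simp [h, n0] at hξ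
      rw [← sub_mul, norm_mul, nr z hz, mul_lt_iff_lt_one_left r0] at h4
      refine (div_eq_one_iff_eq ξ0).1 (root_sep hn' (by rw [div_pow, hζ, hξ, div_one]) ?_)
      rwa [div_sub_one ξ0, norm_div, norm_root n0 hξ, div_one]
    have h5 : ∀ i, (ω ^ i) ^ n = 1 := fun i => by rw [pow_right_comm, hω.pow_eq_one, one_pow]
    have h4 : ∀ w ∈ Φ, ∃ i, w = d (ω ^ i) := fun w hw => by
      obtain ⟨i, -, h⟩ := surj_on_of_inj_on_of_card_le (s := range n) (fun i _ => d (ω ^ i))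
        (fun i _ => hd _ (h5 i)) (fun i j hi hj e => hω.pow_inj (mem_range.1 hi) (mem_range.1 hj)
          (h3 _ _ (h5 i) (h5 j) (by rw [e, sub_self, norm_zero]; exact r0)))
        (by rw [card, card_range]) w hw
      exact ⟨i, h⟩
    obtain ⟨i, hi⟩ := h4 _ (stable γ z hz)
    obtain ⟨j, hj⟩ := h4 _ (stable δ z hz)
    have h6 : ∀ {γ δ : PadicAlgCl p ≃ₐ[ℚ_[p]] PadicAlgCl p} {i j : ℕ}, γ ω = ω →
        γ z = d (ω ^ i) → δ z = d (ω ^ j) → ‖ω ^ (i + j) * z - γ (δ z)‖ < ‖o‖ := by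
      intro γ δ i j hγ hi hj
      refine sub_lt (y := ω ^ j * γ z) ?_ ?_
      · rw [pow_add, mul_comm (ω ^ i), mul_assoc, ← mul_sub, norm_mul, norm_pow,
          norm_root n0 hω.pow_eq_one, one_pow, one_mul, hi]
        exact h2 _ (h5 i)
      · rw [← hγ, ← map_pow, ← map_mul, ← map_sub, nγ, hj]
        exact h2 _ (h5 j)
    obtain ⟨k, hk⟩ := h4 _ (stable γ _ (stable δ z hz))
    obtain ⟨l, hl⟩ := h4 _ (stable δ _ (stable γ z hz))
    have h7 := sub_lt ((norm_sub_rev _ _).trans_lt (h6 hγ hi hj)) (add_comm i j ▸ h6 hδ hj hi)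
    rw [hk, hl] at h7 ⊢
    rw [h3 _ _ (h5 k) (h5 l) h7]
  · let O := Φ.filter fun w => ∃ γ : PadicAlgCl p ≃ₐ[ℚ_[p]] PadicAlgCl p, γ ω = ω ∧ γ z = w
    have h1 : n ∣ O.card := dv (∏ w ∈ O, w) _
      (by rw [norm_prod, prod_eq_pow_card fun w hw => nr w (mem_filter.1 hw).1]) fun γ hγ => by
        conv_rhs => rw [← pr γ O fun w hw => by
          obtain ⟨h1, δ, h2, rfl⟩ := mem_filter.1 hw
          exact mem_filter.2 ⟨stable γ _ h1, γ * δ, by simp [h2, hγ], rfl⟩,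
          prod_image γ.injective.injOn]
        exact map_prod γ _ _
    have h2 : O = Φ := eq_of_subset_of_card_le (filter_subset _ _) (card ▸ Nat.le_of_dvd
      (card_pos.2 ⟨z, mem_filter.2 ⟨hz, 1, rfl, rfl⟩⟩) h1)
    exact (mem_filter.1 (h2 ▸ hw : w ∈ O)).2

end Pool.Agent.P.MP_ee618e_ag.TO
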