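import Pool.Agent.P.MP_ee618e_ag.TO.Main
import Pool.Agent.P.MP_ee618e_ag.TO.Loc

/-!
Two situations in which the hypotheses on the half system hold.
-/

set_option autoImplicit false

namespace Pool.Agent.P.MP_ee618e_ag.TO

open Polynomial Pool.Agent.P.MP_ee618e_ag.PP IntermediateField

variable {p : ℕ} [hp : Fact p.Prime] {L : Type*} [Field L] [NumberField L] [IsGalois ℚ L]

theorem exists_bar {q : ℕ} (hq : q ≠ 0) {h : ℤ[X]} (hW : ∀ z : ℂ, aeval z h = 0 → ‖z‖ ^ 2 = q) :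
    ∃ κ : L ≃ₐ[ℚ] L, (∀ z, aeval z h = 0 → z ≠ 0 ∧ κ z = q / z) ∧
      ∀ x, (∀ ψ : L →+* ℂ, (ψ x).im = 0) → κ x = x := by
  obtain ⟨ψ⟩ : Nonempty (L →+* ℂ) := inferInstance
  obtain ⟨κ, hκ⟩ := emb ψ ((starRingEnd ℂ).comp ψ)
  refine ⟨κ, fun z hz => ?_, fun x hx => ψ.injective ((hκ x).trans
    (Complex.conj_eq_iff_im.2 (hx ψ)))⟩
  have hc : z * κ z = q := ψ.injective (by
    rw [map_mul, hκ, map_natCast, RingHom.comp_apply, Complex.mul_conj, Complex.normSq_eq_norm_sq,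
      hW _ ((root_map ψ _ _).2 hz), Complex.ofReal_natCast])
  have z0 : z ≠ 0 := fun e => hq (by simpa [e] using hc.symm)
  exact ⟨z0, eq_div_of_mul_eq z0 (by rwa [mul_comm])⟩

omit [IsGalois ℚ L] in
theorem half_odd {q : ℕ} (hq : q ≠ 0) {π : L} (h5 : π ≠ 0) (hr : π ^ 2 ≠ q)
    {H : Subgroup (L ≃ₐ[ℚ] L)} (odd : Odd (Nat.card H)) :
    ∀ z ∈ MulAction.orbit H π, q / z ∉ MulAction.orbit H π := by
  have q1 : (q : L) ≠ 0 := by exact_mod_cast hq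
  rintro _ ⟨a, rfl⟩ ⟨b, hb⟩
  have h1 : (a⁻¹ * b) • π = q / π := by
    rw [mul_smul, inv_smul_eq_iff]
    exact hb.trans (by simp [Subgroup.smul_def])
  have h2 : (a⁻¹ * b) ^ 2 ∈ MulAction.stabilizer H π := by
    rw [MulAction.mem_stabilizer_iff, sq, mul_smul, h1, Subgroup.smul_def, AlgEquiv.smul_def,
      map_div₀, map_natCast]
    exact (congrArg ((q : L) / ·) h1).trans (div_div_cancel₀ q1)
  obtain ⟨k, hk⟩ := odd
  have h3 := pow_card_eq_one' (x := a⁻¹ * b)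
  rw [hk, pow_succ', pow_mul] at h3
  have h4 := congrArg (· • π) h3
  simp only [mul_smul _ (_ ^ k), MulAction.mem_stabilizer_iff.1 (pow_mem h2 k), h1,
    one_smul] at h4
  exact hr (by rw [sq, ← eq_div_iff h5, h4])

theorem hyp_odd {q : ℕ} (hq : q ≠ 0) {h P : ℤ[X]} (hW : ∀ z : ℂ, aeval z h = 0 → ‖z‖ ^ 2 = q)
    {φ : L →+* PadicAlgCl p}
    (ss : ∀ z : PadicAlgCl p, aeval z P = 0 → ‖z‖ ^ 2 = ‖(q : PadicAlgCl p)‖)
    {π : L} (hπ : aeval π h = 0) (hr : π ^ 2 ≠ q) {H : Subgroup (L ≃ₐ[ℚ] L)}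
    (odd : Odd (Nat.card H)) {A : Set (L ≃ₐ[ℚ] L)} (sub : ∀ a ∈ A, a ∈ H)
    (comm : ∀ a ∈ A, ∀ b ∈ A, ∀ z ∈ MulAction.orbit H π, a (b z) = b (a z))
    (tr : ∀ z ∈ MulAction.orbit H π, ∀ w ∈ MulAction.orbit H π, ∃ a ∈ A, a z = w)
    (cv : ∀ w : L, aeval w h = 0 → w ∈ MulAction.orbit H π ∨ q / w ∈ MulAction.orbit H π)
    (real : ∀ E : IntermediateField ℚ L, E < ℚ⟮π⟯ → ∀ x ∈ E, ∀ ψ : L →+* ℂ, (ψ x).im = 0) :
    Hyp q (h * P) φ (MulAction.orbit H π) A := by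
  obtain ⟨κ, hκ, hκ'⟩ := exists_bar (L := L) hq hW
  have rt : ∀ (τ : L ≃ₐ[ℚ] L) z, aeval z h = 0 → aeval (τ z) h = 0 := fun τ z =>
    (root_map (τ : L →+* L) _ _).2
  have ro : ∀ z ∈ MulAction.orbit H π, aeval z h = 0 := by
    rintro _ ⟨a, rfl⟩
    exact rt a π hπ
  have half := half_odd hq (hκ π hπ).1 hr odd
  refine ⟨fun z hz => by rw [map_mul, ro z hz, zero_mul], ?_, half, fun z hz h1 h2 => ?_,
    fun τ z _ w hw _ => cv _ (rt τ w (ro w hw)),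
    fun a ha z hz => MulAction.mem_orbit_of_mem_orbit (⟨a, sub a ha⟩ : H) hz, comm, tr, ?_⟩
  · rw [← MulAction.index_stabilizer]
    exact odd.of_dvd_nat (Subgroup.index_dvd_card _)
  · exact ss _ ((root_map φ _ _).2 ((mul_eq_zero.1 ((map_mul _ _ _).symm.trans hz)).resolve_left
      fun e => (cv z e).elim h1 h2))
  · rintro _ ⟨a, rfl⟩ _ ⟨b, rfl⟩ h1 τ
    let S : Subgroup (L ≃ₐ[ℚ] L) :=
      { carrier := {u | ∀ τ : L ≃ₐ[ℚ] L, τ π ∈ MulAction.orbit H π ↔ τ (u π) ∈ MulAction.orbit H π}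
        mul_mem' := fun {u v} hu hv τ => (hu τ).trans (hv (τ * u))
        one_mem' := fun _ => Iff.rfl
        inv_mem' := fun {u} hu τ => by simpa using (hu (τ * u⁻¹)).symm }
    have h2 : fixedField S ≤ ℚ⟮π⟯ := by
      rw [← IsGalois.fixedField_fixingSubgroup ℚ⟮π⟯]
      exact fixedField_le fun u hu τ => by
        rw [show u π = π from hu ⟨π, mem_adjoin_simple_self ℚ π⟩]
    have h3 : π ∈ fixedField S := by_contra fun h3 => by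
      have h4 : κ ∈ S := by
        rw [← fixingSubgroup_fixedField S]
        exact fun x => hκ' _ (real _ (h2.lt_of_ne fun e => h3 (e ▸ mem_adjoin_simple_self ℚ π))
          x x.2)
      exact half π (MulAction.mem_orbit_self π) ((hκ π hπ).2 ▸ (h4 1).1 (MulAction.mem_orbit_self π))
    have h4 : (a⁻¹ * b) • π = π :=
      h3 ⟨(a⁻¹ * b : H), fun τ => by simpa [Subgroup.smul_def] using h1 (τ * (a⁻¹ : H))⟩
    rw [mul_smul, inv_smul_eq_iff] at h4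
    exact congrArg (fun z => ‖φ (τ z)‖) h4.symm

theorem hyp_no_cm {q : ℕ} (hq : q ≠ 0) {h P : ℤ[X]} (hW : ∀ z : ℂ, aeval z h = 0 → ‖z‖ ^ 2 = q)
    {φ : L →+* PadicAlgCl p}
    (ss : ∀ z : PadicAlgCl p, aeval z P = 0 → ‖z‖ ^ 2 = ‖(q : PadicAlgCl p)‖)
    {π : L} (hπ : aeval π h = 0) (hr : π ^ 2 ≠ q) {H : Subgroup (L ≃ₐ[ℚ] L)}
    (odd : Odd (Nat.card H)) (comm : ∀ a ∈ H, ∀ b ∈ H, a * b = b * a)
    (cover : ∀ w : L, aeval w h = 0 → ∃ a ∈ H, a π = w ∨ a π = q / w)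
    (real : ∀ E : IntermediateField ℚ L, E < ℚ⟮π⟯ → ∀ x ∈ E, ∀ ψ : L →+* ℂ, (ψ x).im = 0) :
    Hyp q (h * P) φ (MulAction.orbit H π) H := by
  refine hyp_odd hq hW ss hπ hr odd (fun _ => id)
    (fun a ha b hb z _ => congrArg (· z) (comm a ha b hb)) ?_ (fun w hw => ?_) real
  · rintro _ ⟨a, rfl⟩ _ ⟨b, rfl⟩
    exact ⟨_, (b * a⁻¹).2, show (b * a⁻¹) • a • π = _ by rw [smul_smul, inv_mul_cancel_right]⟩
  · obtain ⟨a, ha, h1⟩ := cover w hw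
    exact h1.imp (fun e => ⟨⟨a, ha⟩, e⟩) fun e => ⟨⟨a, ha⟩, e⟩

theorem hyp_tame {q n a : ℕ} (hq : q ≠ 0) {h P : ℤ[X]} (hh : h.Monic)
    (hW : ∀ z : ℂ, aeval z h = 0 → ‖z‖ ^ 2 = q) (hL : (h.map (Int.castRingHom L)).Splits)
    (φ : L →+* PadicAlgCl p)
    (ss : ∀ z : PadicAlgCl p, aeval z P = 0 → ‖z‖ ^ 2 = ‖(q : PadicAlgCl p)‖)
    (ns : ∀ z : PadicAlgCl p, aeval z h = 0 → ‖z‖ ^ 2 ≠ ‖(q : PadicAlgCl p)‖)
    (odd : Odd n) (hn : ¬ p ∣ n) (ha : n.Coprime a)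
    (card : {z : PadicAlgCl p | aeval z h = 0 ∧ ‖(q : PadicAlgCl p)‖ < ‖z‖ ^ 2}.ncard = n)
    (val : ∀ z : PadicAlgCl p, aeval z h = 0 → ‖(q : PadicAlgCl p)‖ < ‖z‖ ^ 2 →
      ‖z‖ ^ n = ‖(p : PadicAlgCl p)‖ ^ a) :
    ∃ Φ H, Hyp q (h * P) φ Φ H := by
  obtain ⟨κ, hκ, -⟩ := exists_bar (L := L) hq hW
  have q0 : 0 < ‖(q : PadicAlgCl p)‖ := norm_pos_iff.2 (by exact_mod_cast hq)
  let Ψ := {z : PadicAlgCl p | aeval z h = 0 ∧ ‖(q : PadicAlgCl p)‖ < ‖z‖ ^ 2}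
  have fin : Ψ.Finite := Set.finite_of_ncard_pos (card ▸ odd.pos)
  have nγ : ∀ (γ : PadicAlgCl p ≃ₐ[ℚ_[p]] PadicAlgCl p) x, ‖γ x‖ = ‖x‖ := fun γ x =>
    (spectralNorm_eq_of_equiv γ x).symm
  obtain ⟨Γ, c1, c2⟩ := tame_action hn ha (Φ := fin.toFinset)
    (by rw [← Set.ncard_eq_toFinset_card _ fin, card])
    (fun z hz => val z (fin.mem_toFinset.1 hz).1 (fin.mem_toFinset.1 hz).2)
    fun γ z hz => fin.mem_toFinset.2 ⟨(root_map γ.toRingEquiv.toRingHom _ _).2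
      (fin.mem_toFinset.1 hz).1, by rw [nγ]; exact (fin.mem_toFinset.1 hz).2⟩
  simp only [Set.Finite.mem_toFinset] at c1 c2
  have rt : ∀ (τ : L ≃ₐ[ℚ] L) z, aeval z h = 0 → aeval (τ z) h = 0 := fun τ z =>
    (root_map (τ : L →+* L) _ _).2
  have ro : ∀ z, φ z ∈ Ψ → aeval z h = 0 := fun z hz => (root_map φ _ _).1 hz.1
  have nb : ∀ z, aeval z h = 0 → (φ (q / z) ∈ Ψ ↔ φ z ∉ Ψ) := fun z hz => by
    have h1 := (root_map φ _ _).2 hz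
    have h2 := pow_pos (norm_pos_iff.2 ((map_ne_zero φ).2 (hκ z hz).1)) 2
    refine (and_iff_right ((root_map φ _ _).2 ((hκ z hz).2 ▸ rt κ z hz))).trans
      (Iff.trans ?_ (and_iff_right h1).not.symm)
    rw [map_div₀, map_natCast, norm_div, div_pow, lt_div_iff₀ h2, sq ‖(q : PadicAlgCl p)‖,
      mul_lt_mul_iff_right₀ q0, not_lt, (ns _ h1).le_iff_lt]
  have cv : ∀ z, aeval z h = 0 → φ z ∈ Ψ ∨ φ (q / z) ∈ Ψ := fun z hz =>
    or_iff_not_imp_left.2 (nb z hz).2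
  have eq : ∀ z w, φ z ∈ Ψ → φ w ∈ Ψ → ‖φ z‖ = ‖φ w‖ := fun z w hz hw =>
    (pow_left_inj₀ (norm_nonneg _) (norm_nonneg _) odd.pos.ne').1
      ((val _ hz.1 hz.2).trans (val _ hw.1 hw.2).symm)
  refine ⟨φ ⁻¹' Ψ, {δ | ∃ γ ∈ Γ, ∀ x, φ (δ x) = γ (φ x)},
    fun z hz => by rw [map_mul, ro z hz, zero_mul], ?_,
    fun z hz h1 => (nb z (ro z hz)).1 h1 hz, fun z hz h1 h2 => ?_,
    fun τ z _ w hw _ => cv _ (rt τ w (ro w hw)), ?_, ?_, fun z hz w hw => ?_,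
    fun z hz w hw h1 τ => ?_⟩
  · rw [Set.ncard_preimage_of_injective_subset_range φ.injective fun z hz =>
      hL.mem_range_of_isRoot (hh.map _).ne_zero (by
        rw [Polynomial.map_map, RingHom.ext_int (φ.comp _) (algebraMap ℤ _), IsRoot.def,
          eval_map_algebraMap, hz.1]), card]
    exact odd
  · exact ss _ ((root_map φ _ _).2 ((mul_eq_zero.1 ((map_mul _ _ _).symm.trans hz)).resolve_left
      fun e => (cv z e).elim h1 h2))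
  · rintro δ ⟨γ, -, h1⟩ z hz
    exact ⟨(root_map φ _ _).2 (rt δ z (ro z hz)), by rw [h1, nγ]; exact hz.2⟩
  · rintro δ ⟨γ, hγ, h1⟩ δ' ⟨γ', hγ', h2⟩ z hz
    exact φ.injective (by rw [h1, h2, h2, h1, c1 γ hγ γ' hγ' _ hz])
  · obtain ⟨γ, hγ, h1⟩ := c2 _ hz _ hw
    obtain ⟨δ, hδ⟩ := emb φ (γ.toRingEquiv.toRingHom.comp φ)
    exact ⟨δ, ⟨γ, hγ, hδ⟩, φ.injective ((hδ z).trans h1)⟩
  · by_cases h2 : φ (τ z) ∈ Ψ
    · exact eq _ _ h2 ((h1 τ).1 h2)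
    · have h3 := eq _ _ ((nb _ (rt τ z (ro z hz))).2 h2)
        ((nb _ (rt τ w (ro w hw))).2 (mt (h1 τ).2 h2))
      rw [map_div₀, map_div₀, norm_div, norm_div, map_natCast] at h3
      exact inv_injective (mul_left_cancel₀ q0.ne' h3)

theorem exists_split (P : ℤ[X]) : ∃ (L : Type) (_ : Field L) (_ : NumberField L)
    (_ : IsGalois ℚ L), (P.map (Int.castRingHom L)).Splits := by
  let L := (P.map (algebraMap ℤ ℚ)).SplittingField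
  have h := SplittingField.splits (P.map (algebraMap ℤ ℚ))
  rw [Polynomial.map_map, RingHom.ext_int (RingHom.comp _ _) (Int.castRingHom L)] at h
  have : FiniteDimensional ℚ L := inferInstance
  have : Normal ℚ L := by
    convert SplittingField.instNormal (P.map (algebraMap ℤ ℚ))
    exact Subsingleton.elim _ _
  exact ⟨L, inferInstance, ⟨⟩, ⟨⟩, h⟩

end Pool.Agent.P.MP_ee618e_ag.TO
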