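import Mathlib

/-!
Signed permutations of a set of odd size with a transitive commuting family of unsigned ones.
-/

set_option autoImplicit false

namespace Pool.Agent.P.MP_ee618e_ag.TO

open Finset

section unsign

variable {X : Type*} {T : Set (X → X)}

/-- A transitive commuting family of self-maps. -/
structure Reg (T : Set (X → X)) : Prop where
  comm : ∀ a ∈ T, ∀ b ∈ T, ∀ x, a (b x) = b (a x)
  tr : ∀ z w, ∃ a ∈ T, a z = w

/-- Matrices invariant under the family. -/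
def Inv (T : Set (X → X)) (M : Matrix X X ℤ) : Prop := ∀ a ∈ T, ∀ z w, M (a z) (a w) = M z w

theorem Reg.eq (H : Reg T) {a b : X → X} (ha : a ∈ T) (hb : b ∈ T) {x : X} (h : a x = b x)
    (y : X) : a y = b y := by
  obtain ⟨c, hc, rfl⟩ := H.tr x y
  rw [H.comm a ha c hc, h, H.comm c hc b hb]

theorem Reg.refl (H : Reg T) (z w : X) :
    ∃ r : X → X, Function.Involutive r ∧ ∀ u, ∃ a ∈ T, a u = w ∧ a z = r u := by
  choose a ha h using fun u => H.tr u w
  refine ⟨fun u => a u z, fun u => ?_, fun u => ⟨a u, ha u, h u, rfl⟩⟩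
  obtain ⟨k, hk, rfl⟩ := H.tr z u
  exact H.eq (ha _) hk (x := a (k z) z) (by rw [h, H.comm k hk _ (ha _), h]) z

theorem Inv.swap {M : Matrix X X ℤ} (hM : Inv T M) {z w : X} {r : X → X}
    (h1 : Function.Involutive r) (h2 : ∀ u, ∃ a ∈ T, a u = w ∧ a z = r u) (u : X) :
    M (r u) w = M z u ∧ M z (r u) = M u w := by
  obtain ⟨a, ha, h3, h4⟩ := h2 u
  obtain ⟨b, hb, h5, h6⟩ := h2 (r u)
  rw [h1] at h6
  exact ⟨by rw [← h4, ← h3, hM a ha], by rw [← hM b hb, h5, h6]⟩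

theorem Inv.sub {M N : Matrix X X ℤ} (hM : Inv T M) (hN : Inv T N) : Inv T (M - N) :=
  fun a ha z w => by rw [Matrix.sub_apply, Matrix.sub_apply, hM a ha, hN a ha]

variable [Fintype X]

theorem Reg.commute (H : Reg T) {M N : Matrix X X ℤ} (hM : Inv T M) (hN : Inv T N) :
    Commute M N := by
  ext z w
  obtain ⟨r, h1, h2⟩ := H.refl z w
  rw [Matrix.mul_apply, Matrix.mul_apply, ← Equiv.sum_comp h1.toPerm]
  exact sum_congr rfl fun u _ => by
    rw [Function.Involutive.coe_toPerm, (hM.swap h1 h2 u).2, (hN.swap h1 h2 u).1, mul_comm]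

theorem Reg.mid (H : Reg T) (odd : Odd (Fintype.card X)) {a b : X → X} (ha : a ∈ T) (hb : b ∈ T)
    {z : X} (h : a (a z) = b (b z)) : a z = b z := by
  choose c hc h1 using H.tr z
  have h2 : Function.Surjective fun x => c x x := fun w => by
    obtain ⟨r, h3, h4⟩ := H.refl z w
    obtain ⟨u, hu⟩ : ∃ u, r u = u := by
      by_contra h5
      push Not at h5
      have h6 := sum_involution (s := univ) (f := fun _ : X => (1 : ZMod 2)) (fun u _ => r u)
        (fun _ _ => rfl) (fun u _ _ => h5 u) (fun _ _ => mem_univ _) fun u _ => h3 u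
      rw [sum_const, nsmul_one, card_univ, ZMod.natCast_eq_zero_iff] at h6
      exact Nat.not_even_iff_odd.2 odd (even_iff_two_dvd.2 h6)
    obtain ⟨d, hd, h5, h6⟩ := h4 u
    exact ⟨u, (H.eq (hc u) hd (x := z) (by rw [h1, h6, hu]) u).trans h5⟩
  refine Finite.injective_iff_surjective.2 h2 ?_
  rw [H.eq (hc _) ha (h1 _), H.eq (hc _) hb (h1 _), h]

theorem Reg.mul (H : Reg T) {M N : Matrix X X ℤ} (hM : Inv T M) (hN : Inv T N) :
    Inv T (M * N) := fun a ha z w => by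
  have h : Function.Surjective a := fun w => by
    obtain ⟨b, hb, h⟩ := H.tr (a w) w
    exact ⟨b w, by rw [H.comm a ha b hb, h]⟩
  rw [Matrix.mul_apply, Matrix.mul_apply, ← (Finite.surjective_iff_bijective.1 h).sum_comp]
  exact sum_congr rfl fun u _ => by rw [hM a ha, hN a ha]

variable [DecidableEq X]

theorem Reg.red (H : Reg T) (odd : Odd (Fintype.card X)) {E : Matrix X X ℤ} (hE : Inv T E)
    (h : ∀ z w, 2 ∣ (E * E) z w) (z u : X) : 2 ∣ E z u := by
  obtain ⟨a, ha, rfl⟩ := H.tr z u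
  obtain ⟨r, h1, h2⟩ := H.refl z (a (a z))
  have h3 : r (a z) = a z := by
    obtain ⟨b, hb, h3, h4⟩ := h2 (a z)
    rw [← h4, H.eq hb ha h3]
  have h4 := (ZMod.intCast_zmod_eq_zero_iff_dvd _ 2).2 (h z (a (a z)))
  rw [Matrix.mul_apply, ← add_sum_erase _ _ (mem_univ (a z)), Int.cast_add, Int.cast_sum,
    sum_involution (fun u _ => r u), add_zero, hE a ha, ZMod.intCast_zmod_eq_zero_iff_dvd] at h4
  · exact (Int.prime_two.dvd_mul.1 h4).elim id id
  · intro u _
    rw [(hE.swap h1 h2 u).1, (hE.swap h1 h2 u).2, mul_comm, CharTwo.add_self_eq_zero]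
  · intro u hu _ h5
    obtain ⟨b, hb, h6, h7⟩ := h2 u
    rw [h5] at h7
    exact ne_of_mem_erase hu (h7 ▸ H.mid odd hb ha (by rw [h7, h6]))
  · intro u hu
    exact mem_erase.2 ⟨fun h5 => ne_of_mem_erase hu (h1.injective (h5.trans h3.symm)), mem_univ _⟩
  · exact fun u _ => h1 u

theorem pow_congr {Q E : Matrix X X ℤ} (h : Commute Q E) (h0 : ∀ z w, 2 ∣ (Q - E) z w) (k : ℕ) :
    ∀ z w, 2 ^ (k + 1) ∣ (Q ^ 2 ^ k - E ^ 2 ^ k) z w := by
  induction k with
  | zero => simpa using h0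
  | succ k ih =>
    intro z w
    rw [pow_succ 2 k, pow_mul, pow_mul, (h.pow_pow _ _).sq_sub_sq, Matrix.mul_apply,
      pow_succ' 2 (k + 1)]
    refine dvd_sum fun u _ => mul_dvd_mul ?_ (ih u w)
    have h1 := (dvd_pow_self 2 k.succ_ne_zero).trans (ih z u)
    rw [Matrix.sub_apply] at h1
    rw [Matrix.add_apply]
    omega

theorem Reg.pow (H : Reg T) {M : Matrix X X ℤ} (hM : Inv T M) (n : ℕ) : Inv T (M ^ 2 ^ n) := by
  induction n with
  | zero => simpa using hM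
  | succ n ih => rw [pow_succ, pow_mul, sq]; exact H.mul ih ih

theorem Reg.cancel (H : Reg T) (odd : Odd (Fintype.card X)) {M N : Matrix X X ℤ} (hM : Inv T M)
    (hN : Inv T N) (n : ℕ) (h : ∀ z w, 2 ∣ (M ^ 2 ^ n - N ^ 2 ^ n) z w) :
    ∀ z w, 2 ∣ (M - N) z w := by
  induction n with
  | zero => simpa using h
  | succ n ih =>
    refine ih (H.red odd ((H.pow hM n).sub (H.pow hN n)) fun z w => ?_)
    have h1 := h z w
    rw [pow_succ, pow_mul, pow_mul, sq, sq, Matrix.sub_apply] at h1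
    rw [sub_mul, mul_sub, mul_sub, (H.commute (H.pow hM n) (H.pow hN n)).eq]
    simp only [Matrix.sub_apply]
    omega

/-- An invariant matrix that is preserved by a signed permutation is preserved by the underlying
permutation. -/
theorem Reg.unsign (H : Reg T) (odd : Odd (Fintype.card X)) (π : X ≃ X) {ε : X → ℤ}
    (hε : ∀ z, ε z * ε z = 1) (k : ℕ) : ∀ E : Matrix X X ℤ, Inv T E →
      (∀ z w, E (π z) (π w) = ε z * ε w * E z w) → ∀ z w, 2 ^ k ∣ E (π z) (π w) - E z w := by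
  induction k with
  | zero => simp
  | succ k ih =>
    intro E hE h2 z w
    obtain ⟨m, hm, h1⟩ : ∃ m, k ≤ m ∧ ∀ z w, 2 ∣ (E - E ^ 2 ^ m) z w := by
      obtain ⟨i, j, hij, h⟩ := Set.finite_univ.exists_lt_map_eq_of_forall_mem (f := fun i : ℕ =>
        (E ^ 2 ^ ((k + 1) * i)).map (Int.cast : ℤ → ZMod 2)) fun _ => Set.mem_univ _
      obtain ⟨d, rfl⟩ := Nat.exists_eq_add_of_lt hij
      refine ⟨(k + 1) * (d + 1), by nlinarith, H.cancel odd hE (H.pow hE _) ((k + 1) * i)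
        fun z w => ?_⟩
      rw [← pow_mul, ← pow_add, ← mul_add, add_comm (d + 1), ← add_assoc]
      exact (ZMod.intCast_eq_intCast_iff_dvd_sub _ _ 2).1 (congrFun (congrFun h z) w).symm
    have h3 : ∀ (n : ℕ) (M : Matrix X X ℤ) (ε : X → ℤ), (∀ z, ε z * ε z = 1) →
        (∀ z w, M (π z) (π w) = ε z * ε w * M z w) →
        ∀ z w, (M ^ 2 ^ n) (π z) (π w) = ε z * ε w * (M ^ 2 ^ n) z w := fun n M ε hε h => by
      induction n with
      | zero => simpa using h
      | succ n ih =>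
        intro z w
        rw [pow_succ, pow_mul, sq, Matrix.mul_apply, Matrix.mul_apply, ← Equiv.sum_comp π, mul_sum]
        exact sum_congr rfl fun u _ => by
          rw [ih, ih]
          linear_combination (ε z * ε w * (M ^ 2 ^ n) z u * (M ^ 2 ^ n) u w) * hε u
    let Q : Matrix X X ℤ := Matrix.of fun z w => E z w ^ 2
    have h4 := pow_congr (Q := Q) (H.commute (fun a ha z w => congrArg (· ^ 2) (hE a ha z w)) hE)
      (fun z w => by
        have := Int.even_mul_pred_self (E z w)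
        rw [mul_sub, mul_one, ← sq] at this
        exact this.two_dvd) m
    have h5 := dvd_sub (h4 z w) (h4 (π z) (π w))
    rw [Matrix.sub_apply, Matrix.sub_apply, h3 m Q 1 (by simp) fun z w => by
      simp only [Q, Matrix.of_apply, h2, mul_pow, sq (ε _), hε, Pi.one_apply]] at h5
    choose F hF using h1
    have h6 := ih (Matrix.of F)
      (fun a ha z w => mul_left_cancel₀ two_ne_zero (by
        rw [Matrix.of_apply, Matrix.of_apply, ← hF, ← hF, hE.sub (H.pow hE m) a ha]))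
      (fun z w => mul_left_cancel₀ two_ne_zero (by
        rw [Matrix.of_apply, Matrix.of_apply, mul_left_comm, ← hF, ← hF, Matrix.sub_apply,
          Matrix.sub_apply, h2, h3 m E ε hε h2, mul_sub])) z w
    have h7 := mul_dvd_mul_left 2 h6
    rw [Matrix.of_apply, Matrix.of_apply, mul_sub, ← hF, ← hF, ← pow_succ'] at h7
    refine (dvd_add h7 ((pow_dvd_pow 2 (Nat.succ_le_succ hm)).trans h5)).trans (dvd_of_eq ?_)
    simp only [Matrix.sub_apply, Pi.one_apply]
    ring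

end unsign

section action

variable {G R : Type*} [Group G] [Fintype G] [Finite R] [MulAction G R]

/-- A family of slope vectors with sum zero contains the opposite of each nonzero member. -/
theorem opposite {bar : R → R} (hb : Function.Involutive bar)
    (hbg : ∀ (g : G) z, bar (g • z) = g • bar z) {s : R → ℝ} (hs : ∀ z, s (bar z) = - s z)
    {Φ : Set R} (odd : Odd Φ.ncard) (half : ∀ z ∈ Φ, bar z ∉ Φ)
    (out : ∀ z, z ∉ Φ → bar z ∉ Φ → s z = 0)
    (block : ∀ g : G, ∀ z ∈ Φ, ∀ w ∈ Φ, g • z ∈ Φ ∨ bar (g • z) ∈ Φ → g • w ∈ Φ ∨ bar (g • w) ∈ Φ)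
    {H : Set G} (pres : ∀ a ∈ H, ∀ z ∈ Φ, a • z ∈ Φ)
    (comm : ∀ a ∈ H, ∀ b ∈ H, ∀ z ∈ Φ, a • b • z = b • a • z)
    (tr : ∀ z ∈ Φ, ∀ w ∈ Φ, ∃ a ∈ H, a • z = w)
    (prim : ∀ z ∈ Φ, ∀ w ∈ Φ, (∀ g : G, g • z ∈ Φ ↔ g • w ∈ Φ) → ∀ g : G, s (g • z) = s (g • w))
    {I : Type*} {γ : I → R} {J : Finset I} (hsum : ∀ g : G, ∑ k ∈ J, s (g • γ k) = 0)
    {j : I} (hj : j ∈ J) {σ : G} (h0 : s (σ • γ j) ≠ 0) :
    ∃ k ∈ J, ∀ g : G, s (g • γ k) = - s (g • γ j) := by
  classical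
  have := Fintype.ofFinite Φ
  let T : Set (Φ → Φ) := {f | ∃ a ∈ H, ∀ z, (f z : R) = a • (z : R)}
  have hT : Reg T := ⟨fun _ ⟨a, ha, h1⟩ _ ⟨b, hb, h2⟩ z => Subtype.ext (by
      rw [h1, h2, h2, h1, comm a ha b hb _ z.2]), fun z w => by
    obtain ⟨a, ha, h⟩ := tr z z.2 w w.2
    exact ⟨fun x => ⟨a • x, pres a ha _ x.2⟩, ⟨a, ha, fun _ => rfl⟩, Subtype.ext h⟩⟩
  let N : R → R → ℝ := fun z w => ∑ g : G, s (g • z) * s (g • w)
  have hN : ∀ (g : G) z w, N (g • z) (g • w) = N z w := fun g z w => by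
    simp only [N, smul_smul]
    exact Equiv.sum_comp (Equiv.mulRight g) fun g => s (g • z) * s (g • w)
  have hN1 : ∀ z w, N (bar z) w = - N z w := fun z w => by simp [N, ← hbg, hs]
  have hN2 : ∀ z w, N z (bar w) = - N z w := fun z w => by simp [N, ← hbg, hs]
  let E : Matrix Φ Φ ℤ := Matrix.of fun z w => SignType.sign (N z w)
  have pos : ∀ x, x ∈ Φ ∨ bar x ∈ Φ → ∃ z : Φ, (x = z ∧ x ∈ Φ) ∨ (x = bar z ∧ x ∉ Φ) := by
    rintro x (h | h)
    · exact ⟨⟨x, h⟩, Or.inl ⟨rfl, h⟩⟩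
    · exact ⟨⟨bar x, h⟩, Or.inr ⟨(hb x).symm, fun h' => half x h' h⟩⟩
  have nz : ∀ x, s x ≠ 0 → x ∈ Φ ∨ bar x ∈ Φ := fun x hx => by_contra fun h =>
    hx (out x (fun h' => h (Or.inl h')) fun h' => h (Or.inr h'))
  have perm : ∀ (g : G) (z : Φ), g • (z : R) ∈ Φ ∨ bar (g • (z : R)) ∈ Φ →
      (∀ z w : Φ, N z w ≠ 0 → (g • (z : R) ∈ Φ ↔ g • (w : R) ∈ Φ)) ∧
      ∀ x, s (g • x) ≠ 0 → x ∈ Φ ∨ bar x ∈ Φ := fun g z hg => by
    choose π hπ using fun w : Φ => pos _ (block g z z.2 w w.2 hg)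
    have inj : Function.Injective π := fun z w e => by
      have h1 : ∀ {z w : Φ}, π z = π w → g • (z : R) = π z → g • (w : R) = bar (π w) → False :=
        fun {z w} e h1 h2 => by
          rw [← e, ← h1, hbg, smul_left_cancel_iff] at h2
          exact half _ z.2 (h2 ▸ w.2)
      rcases hπ z with ⟨h2, -⟩ | ⟨h2, -⟩ <;> rcases hπ w with ⟨h3, -⟩ | ⟨h3, -⟩
      · exact Subtype.ext ((smul_left_cancel_iff g).1 (by rw [h2, h3, e]))
      · exact (h1 e h2 h3).elim
      · exact (h1 e.symm h3 h2).elim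
      · exact Subtype.ext ((smul_left_cancel_iff g).1 (by rw [h2, h3, e]))
    have bij := Finite.injective_iff_bijective.1 inj
    refine ⟨fun z w h => ?_, fun x hx => ?_⟩
    · let ε : Φ → ℤ := fun z => if g • (z : R) ∈ Φ then 1 else -1
      have h1 : ∀ z w, E (π z) (π w) = ε z * ε w * E z w := fun z w => by
        simp only [E, ε, Matrix.of_apply, ← hN g z w]
        rcases hπ z with ⟨h2, h4⟩ | ⟨h2, h4⟩ <;> rcases hπ w with ⟨h3, h5⟩ | ⟨h3, h5⟩ <;>
          simp only [h4, h5, if_true, if_false] <;> rw [h2, h3] <;>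
          simp [hN1, hN2, Left.sign_neg]
      have h2 := Int.eq_zero_of_abs_lt_dvd (hT.unsign (by rwa [← Nat.card_eq_fintype_card])
        (Equiv.ofBijective π bij) (ε := ε) (fun z => by simp only [ε]; split_ifs <;> rfl)
        (E (π z) (π w) - E z w).natAbs E
        (fun _ ⟨a, _, h⟩ z w => by simp only [E, Matrix.of_apply, h, hN]) h1 z w)
        (by rw [Int.abs_eq_natAbs]; exact_mod_cast Nat.lt_two_pow_self)
      rw [Equiv.ofBijective_apply, Equiv.ofBijective_apply, h1, ← sub_one_mul, mul_eq_zero] at h2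
      have h3 := h2.resolve_right fun h3 => by
        rcases h.lt_or_gt with h4 | h4 <;> simp [E, h4] at h3
      simp only [ε] at h3
      split_ifs at h3 <;> simp_all
    · obtain ⟨z, hz⟩ := pos _ (nz _ hx)
      obtain ⟨u, rfl⟩ := bij.2 z
      have h1 : x = u ∨ x = bar u := by
        rw [← smul_left_cancel_iff g, ← smul_left_cancel_iff g (x := x) (y := bar u), ← hbg]
        rcases hπ u with ⟨h2, -⟩ | ⟨h2, -⟩ <;> rcases hz with ⟨h3, -⟩ | ⟨h3, -⟩ <;>
          simp [h2, h3, hb _]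
      rcases h1 with rfl | rfl <;> simp [hb _]
  have key : ∀ z w : Φ, N z w ≠ 0 → ∀ g : G, s (g • (z : R)) = s (g • (w : R)) :=
    fun z w h => prim z z.2 w w.2 fun g =>
      ⟨fun h1 => ((perm g z (Or.inl h1)).1 z w h).1 h1,
        fun h1 => ((perm g w (Or.inl h1)).1 z w h).2 h1⟩
  have nn : ∀ x, 0 ≤ N x x := fun x => sum_nonneg fun g _ => mul_self_nonneg _
  have h1 : ∑ k ∈ J, N (σ • γ j) (σ • γ k) = 0 := by
    rw [sum_comm]
    exact sum_eq_zero fun g _ => by simp only [← mul_sum, smul_smul, hsum, mul_zero]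
  have h2 : 0 < N (σ • γ j) (σ • γ j) :=
    sum_pos' (fun g _ => mul_self_nonneg _) ⟨1, mem_univ _, by simpa using h0⟩
  obtain ⟨k, hk, h3⟩ : ∃ k ∈ J, N (σ • γ j) (σ • γ k) < 0 := by
    by_contra h3
    push Not at h3
    exact (h2.trans_le (single_le_sum h3 hj)).ne' h1
  refine ⟨k, hk, fun g => ?_⟩
  rw [← inv_mul_cancel_right g σ, mul_smul _ σ, mul_smul _ σ]
  generalize g * σ⁻¹ = g
  generalize σ • γ j = x at h0 h3
  generalize σ • γ k = y at h3
  obtain ⟨z, hz⟩ := pos x (nz x h0)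
  obtain ⟨w, hw⟩ := pos y (by
    obtain ⟨g, -, hg⟩ := exists_ne_zero_of_sum_ne_zero h3.ne
    refine (perm g z (nz _ ?_)).2 y (right_ne_zero_of_mul hg)
    have h4 := left_ne_zero_of_mul hg
    rcases hz with ⟨rfl, -⟩ | ⟨rfl, -⟩
    · exact h4
    · rwa [← hbg, hs, neg_ne_zero] at h4)
  have h4 : ∀ {z w : Φ}, N z w ≠ 0 → N z w = N z z := fun h =>
    sum_congr rfl fun g _ => by rw [← key _ _ h]
  rcases hz with ⟨rfl, -⟩ | ⟨rfl, -⟩ <;> rcases hw with ⟨rfl, -⟩ | ⟨rfl, -⟩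
  · exact absurd (h4 h3.ne ▸ h3) (nn _).not_gt
  · rw [← hbg, hs, key z w (by rw [hN2] at h3; linarith [h3])]
  · rw [← hbg, hs, neg_neg, key z w (by rw [hN1] at h3; linarith [h3])]
  · rw [hN1, hN2, neg_neg] at h3
    exact absurd (h4 h3.ne ▸ h3) (nn _).not_gt

end action

end Pool.Agent.P.MP_ee618e_ag.TO
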