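import Pool.Agent.P.MP_ee618e_ag.PP.Main
import Pool.Agent.P.MP_ee618e_ag.TO.Odd

/-!
No exotic Tate classes when a half system of odd size carries a transitive commuting family of
automorphisms.
-/

set_option autoImplicit false

namespace Pool.Agent.P.MP_ee618e_ag.TO

open Polynomial Pool.Agent.P.MP_ee618e_ag.FP Pool.Agent.P.MP_ee618e_ag.PP

variable {p : ℕ} [hp : Fact p.Prime] {L : Type*} [Field L] [NumberField L]

/-- The hypotheses on the half system. -/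
structure Hyp (q : ℕ) (P : ℤ[X]) (φ : L →+* PadicAlgCl p) (Φ : Set L)
    (H : Set (L ≃ₐ[ℚ] L)) : Prop where
  roots : ∀ z ∈ Φ, aeval z P = 0
  odd : Odd Φ.ncard
  half : ∀ z ∈ Φ, q / z ∉ Φ
  out : ∀ z : L, aeval z P = 0 → z ∉ Φ → q / z ∉ Φ → ‖φ z‖ ^ 2 = ‖(q : PadicAlgCl p)‖
  block : ∀ τ : L ≃ₐ[ℚ] L, ∀ z ∈ Φ, ∀ w ∈ Φ, τ z ∈ Φ → τ w ∈ Φ ∨ q / τ w ∈ Φ
  pres : ∀ a ∈ H, ∀ z ∈ Φ, a z ∈ Φ
  comm : ∀ a ∈ H, ∀ b ∈ H, ∀ z ∈ Φ, a (b z) = b (a z)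
  tr : ∀ z ∈ Φ, ∀ w ∈ Φ, ∃ a ∈ H, a z = w
  prim : ∀ z ∈ Φ, ∀ w ∈ Φ, (∀ τ : L ≃ₐ[ℚ] L, τ z ∈ Φ ↔ τ w ∈ Φ) →
    ∀ τ : L ≃ₐ[ℚ] L, ‖φ (τ z)‖ = ‖φ (τ w)‖

variable [IsGalois ℚ L] {P : ℤ[X]} {φ : L →+* PadicAlgCl p} {Φ : Set L} {H : Set (L ≃ₐ[ℚ] L)}

theorem core {q : ℕ} (h : Hyp q P φ Φ H) (hP : P.Monic) (hq : q ≠ 0)
    (hW : ∀ z : ℂ, aeval z P = 0 → ‖z‖ ^ 2 = q) {I : Type*} {γ : I → L} {J : Finset I}
    (hγ : ∀ k, aeval (γ k) P = 0)
    (hsum : ∀ τ : L ≃ₐ[ℚ] L, ∑ k ∈ J, sl (q : PadicAlgCl p) (φ (τ (γ k))) = 0)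
    {j : I} (hj : j ∈ J) {σ : L ≃ₐ[ℚ] L} (h0 : sl (q : PadicAlgCl p) (φ (σ (γ j))) ≠ 0) :
    ∃ k ∈ J, ∀ τ : L ≃ₐ[ℚ] L,
      sl (q : PadicAlgCl p) (φ (τ (γ k))) = - sl (q : PadicAlgCl p) (φ (τ (γ j))) := by
  have q0 : (q : PadicAlgCl p) ≠ 0 := by exact_mod_cast hq
  have q1 : (q : L) ≠ 0 := by exact_mod_cast hq
  let R := P.rootSet L
  have hR : ∀ z : L, z ∈ R ↔ aeval z P = 0 := fun z => mem_rootSet_of_ne hP.ne_zero
  obtain ⟨ψ⟩ : Nonempty (L →+* ℂ) := inferInstance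
  obtain ⟨κ, hκ⟩ := emb ψ ((starRingEnd ℂ).comp ψ)
  have hc : ∀ z : R, (z : L) * κ z = q := fun z => ψ.injective (by
    rw [map_mul, hκ, map_natCast, RingHom.comp_apply, Complex.mul_conj, Complex.normSq_eq_norm_sq,
      hW _ ((root_map ψ _ _).2 ((hR _).1 z.2)), Complex.ofReal_natCast])
  have z0 : ∀ z : R, (z : L) ≠ 0 := fun z e => q1 (by rw [← hc z, e, zero_mul])
  have hbar : ∀ z : R, ((κ • z : R) : L) = q / z := fun z => eq_div_of_mul_eq (z0 z) (by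
    rw [mul_comm]; exact hc z)
  have hb : Function.Involutive fun z : R => κ • z := fun z =>
    Subtype.ext (by rw [hbar, hbar, div_div_cancel₀ q1])
  have hbl : ∀ g : L ≃ₐ[ℚ] L, ∀ z w : R, (z : L) ∈ Φ → (w : L) ∈ Φ → ((g • z : R) : L) ∈ Φ →
      ((g • w : R) : L) ∈ Φ ∨ ((κ • g • w : R) : L) ∈ Φ := fun g z w hz hw h1 => by
    rw [hbar]; exact h.block g _ hz _ hw h1
  exact opposite (G := L ≃ₐ[ℚ] L) (R := R) hb
    (fun g z => Subtype.ext (by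
      change ((κ • g • z : R) : L) = g (κ • z : R)
      rw [hbar, hbar, map_div₀, map_natCast]
      rfl))
    (s := fun z => sl (q : PadicAlgCl p) (φ z))
    (fun z => by rw [hbar, map_div₀, map_natCast, sl_div q0 ((map_ne_zero φ).2 (z0 z))])
    (Φ := Subtype.val ⁻¹' Φ)
    (by
      rw [Set.ncard_preimage_of_injective_subset_range Subtype.val_injective
        fun z hz => ⟨⟨z, (hR z).2 (h.roots z hz)⟩, rfl⟩]
      exact h.odd)
    (fun z hz => by rw [Set.mem_preimage, hbar]; exact h.half _ hz)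
    (fun z h1 h2 => (sl_eq_zero q0 ((map_ne_zero φ).2 (z0 z))).2
      (h.out _ ((hR _).1 z.2) h1 (by rwa [← hbar])))
    (fun g z hz w hw h1 => h1.elim (hbl g z w hz hw) fun h1 => by
      have h2 := hbl (κ * g) z w hz hw (by rwa [mul_smul])
      rw [mul_smul, show κ • κ • g • w = g • w from hb _] at h2
      exact h2.symm)
    (H := H) (fun a ha z hz => h.pres a ha _ hz)
    (fun a ha b hb z hz => Subtype.ext (h.comm a ha b hb _ hz))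
    (fun z hz w hw => (h.tr _ hz _ hw).imp fun a ha => ⟨ha.1, Subtype.ext ha.2⟩)
    (fun z hz w hw h1 g => by
      change sl _ (φ (g z)) = sl _ (φ (g w))
      rw [sl, sl, h.prim _ hz _ hw h1 g])
    (γ := fun k => ⟨γ k, (hR _).2 (hγ k)⟩) hsum hj h0

theorem pair {e : ℕ} (h : Hyp (p ^ e) P φ Φ H) (hP : P.Monic)
    (hW : ∀ z : ℂ, aeval z P = 0 → ‖z‖ ^ 2 = (p : ℝ) ^ e) {I : Type*} {γ : I → L}
    (hγ : ∀ k, aeval (γ k) P = 0) {J : Finset I} {i n : ℕ} (hJ : J.card = 2 * (i + 1)) (hn : 0 < n)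
    (hrel : (∏ k ∈ J, γ k) ^ n = ((p : L) ^ e) ^ ((i + 1) * n)) :
    ∃ k ∈ J, ∃ l ∈ J, k ≠ l ∧ ∃ m, 0 < m ∧ (γ k * γ l) ^ m = ((p : L) ^ e) ^ m := by
  have p0 : (0 : ℝ) < p := by exact_mod_cast hp.out.pos
  have hq : ((p ^ e : ℕ) : PadicAlgCl p) ≠ 0 := by exact_mod_cast pow_ne_zero e hp.out.ne_zero
  have hqL : (p : L) ^ e ≠ 0 := pow_ne_zero e (by exact_mod_cast hp.out.ne_zero)
  have n0 : ∀ (τ : L ≃ₐ[ℚ] L) k, φ (τ (γ k)) ≠ 0 := fun τ k =>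
    (map_ne_zero φ).2 ((map_ne_zero τ).2 fun h0 => by
      obtain ⟨ψ⟩ : Nonempty (L →+* ℂ) := inferInstance
      have h1 := hW _ ((root_map ψ _ _).2 (hγ k))
      rw [h0, map_zero, norm_zero] at h1
      exact (pow_pos p0 e).ne' (by rw [← h1]; norm_num))
  obtain ⟨k, hk, l, hl, h1, h2⟩ : ∃ k ∈ J, ∃ l ∈ J, k ≠ l ∧ ∀ τ : L ≃ₐ[ℚ] L,
      sl ((p ^ e : ℕ) : PadicAlgCl p) (φ (τ (γ k))) +
        sl ((p ^ e : ℕ) : PadicAlgCl p) (φ (τ (γ l))) = 0 := by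
    by_cases h1 : ∀ σ : L ≃ₐ[ℚ] L, ∀ k ∈ J, sl ((p ^ e : ℕ) : PadicAlgCl p) (φ (σ (γ k))) = 0
    · obtain ⟨k, hk, l, hl, h2⟩ := Finset.one_lt_card.1 (show 1 < J.card by omega)
      exact ⟨k, hk, l, hl, h2, fun τ => by rw [h1 τ k hk, h1 τ l hl, add_zero]⟩
    · push Not at h1
      obtain ⟨σ, j, hj, h1⟩ := h1
      obtain ⟨k, hk, h2⟩ := core h hP (pow_ne_zero e hp.out.ne_zero) (by simpa using hW) hγ
        (fun τ => sl_sum (fun k _ => n0 τ k) hJ hn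
          (by simpa using congrArg (fun x => φ (τ x)) hrel)) hj h1
      exact ⟨k, hk, j, hj, fun e => h1 (self_eq_neg.1 (e ▸ h2 σ)), fun τ => by
        rw [h2, neg_add_cancel]⟩
  obtain ⟨m, hm, h3⟩ := kron φ (u := γ k * γ l / (p : L) ^ e)
    ⟨e, by
      rw [mul_div_cancel₀ _ hqL]
      exact IsIntegral.mul ⟨P, hP, hγ k⟩ ⟨P, hP, hγ l⟩⟩
    (fun τ => by
      have h4 := h2 τ
      rw [← sl_mul (n0 τ k) (n0 τ l), sl_eq_zero (pow_ne_zero 2 hq)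
        (mul_ne_zero (n0 τ k) (n0 τ l)), norm_pow, sq_eq_sq₀ (norm_nonneg _) (norm_nonneg _)] at h4
      simp only [map_div₀, map_mul, map_pow, map_natCast, norm_div, h4, Nat.cast_pow]
      exact div_self (norm_ne_zero_iff.2 (by exact_mod_cast hq)))
    (fun ψ => by
      have h4 := hW _ ((root_map ψ _ _).2 (hγ k))
      have h5 := hW _ ((root_map ψ _ _).2 (hγ l))
      have h6 : ‖ψ (γ k)‖ = ‖ψ (γ l)‖ :=
        (sq_eq_sq₀ (norm_nonneg _) (norm_nonneg _)).1 (h4.trans h5.symm)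
      simp only [map_div₀, map_mul, map_pow, map_natCast, norm_div, norm_mul, norm_pow,
        Complex.norm_natCast]
      rw [h6, ← sq, h5, div_self (pow_pos p0 e).ne'])
  rw [div_pow, div_eq_one_iff_eq (pow_ne_zero m hqL)] at h3
  exact ⟨k, hk, l, hl, h1, m, hm, h3⟩

theorem main {e : ℕ} (h : Hyp (p ^ e) P φ Φ H) (hP : P.Monic)
    (hW : ∀ z : ℂ, aeval z P = 0 → ‖z‖ ^ 2 = (p : ℝ) ^ e)
    (hL : (P.map (Int.castRingHom L)).Splits) {K V : Type*} [Field K]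
    [CharZero K] [AddCommGroup V] [Module K V] [FiniteDimensional K V] {F : V →ₗ[K] V}
    (hF : Module.End.IsSemisimple F) (hFP : aeval F P = 0) (i : ℕ) :
    TateClasses F ((p : K) ^ e) i ⊆ Algebra.adjoin K (TateClasses F ((p : K) ^ e) 1) := by
  let A := AlgebraicClosure K
  have : CharZero A := algebraRat.charZero A
  obtain ⟨s, b, α, hα⟩ := exists_eigenbasis A hF
  refine descent A F _ i ?_
  rw [map_pow, map_natCast]
  have hr : ∀ k, aeval (α k) P = 0 := fun k => by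
    have h1 := aeval_algHom_apply (Module.End.baseChangeHom K A V) F (P.map (algebraMap ℤ K))
    rw [aeval_map_algebraMap, aeval_map_algebraMap, hFP, map_zero] at h1
    change aeval (F.baseChange A) P = 0 at h1
    have h2 := Module.End.aeval_apply_of_hasEigenvector (p := P.map (algebraMap ℤ A))
      (f := F.baseChange A) (μ := α k) (x := b k)
      ⟨Module.End.mem_eigenspace_iff.2 (hα k), b.ne_zero k⟩
    rw [aeval_map_algebraMap, h1, eval_map_algebraMap] at h2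
    exact (smul_eq_zero.1 h2.symm).resolve_right (b.ne_zero k)
  let g : L →+* A := (IsAlgClosed.lift : L →ₐ[ℚ] A)
  choose γ hγ using fun k => hL.mem_range_of_isRoot (hP.map _).ne_zero (i := g) (x := α k) (by
    rw [Polynomial.map_map, RingHom.ext_int (g.comp _) (algebraMap ℤ A), IsRoot.def,
      eval_map_algebraMap, hr])
  refine gen_of_pairs hα (pow_ne_zero _ (by exact_mod_cast hp.out.ne_zero))
    (fun J i n hJ hn hrel => ?_) i
  obtain ⟨k, hk, l, hl, h1, m, hm, h2⟩ := pair h hP hW (γ := γ)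
    (fun k => (root_map g _ _).1 (by rw [hγ]; exact hr k)) hJ hn (g.injective (by simpa [hγ] using hrel))
  exact ⟨k, hk, l, hl, h1, m, hm, by simpa [hγ] using congrArg g h2⟩

end Pool.Agent.P.MP_ee618e_ag.TO
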