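import Pool.Agent.P.MP_ee618e_ag.TO.Cor

/-!
The hypotheses on the half system hold when the number of pairs of roots is the square of an odd
prime and the field generated by a root has no proper CM subfield.
-/

set_option autoImplicit false

namespace Pool.Agent.P.MP_ee618e_ag.TO

open Polynomial Pool.Agent.P.MP_ee618e_ag.PP IntermediateField MulAction

/-- A transitive `l`-group of degree `l ^ 2` has a transitive abelian subgroup. -/
theorem abelian_trans {R X : Type*} [Group R] [Finite R] [MulAction R X] [FaithfulSMul R X]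
    [IsPretransitive R X] {l : ℕ} [hl : Fact l.Prime] (hR : IsPGroup l R)
    (hX : Nat.card X = l ^ 2) :
    ∃ A : Subgroup R, (∀ a ∈ A, ∀ b ∈ A, a * b = b * a) ∧ ∀ x y : X, ∃ a ∈ A, a • x = y := by
  have l1 := hl.out.one_lt
  have : Finite X := Nat.finite_of_card_ne_zero (by rw [hX]; positivity)
  have : Nontrivial X := Finite.one_lt_card_iff_nontrivial.1 (hX ▸ one_lt_pow₀ l1 two_ne_zero)
  obtain ⟨x, y, hxy⟩ := exists_pair_ne X
  have : Nontrivial R := by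
    obtain ⟨g, hg⟩ := exists_smul_eq R x y
    exact ⟨g, 1, fun e => hxy (by rw [← hg, e, one_smul])⟩
  have := hR.center_nontrivial
  obtain ⟨c, hc⟩ := exists_ne (1 : Subgroup.center R)
  have h1 : c • x ≠ x := fun e => hc (Subtype.ext (eq_of_smul_eq_smul (α := X) fun z => by
    obtain ⟨g, rfl⟩ := exists_smul_eq R x z
    rw [smul_smul, ← Subgroup.mem_center_iff.1 c.2, mul_smul, show (c : R) • x = x from e]
    simp))
  have h2 : ∀ A : Subgroup R, ∃ n, (orbit A x).ncard = l ^ n := fun A =>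
    (hR.to_subgroup A).card_orbit x
  suffices h : ∃ A : Subgroup R, (∀ a ∈ A, ∀ b ∈ A, a * b = b * a) ∧ orbit A x = Set.univ by
    obtain ⟨A, hA, h⟩ := h
    refine ⟨A, hA, fun z w => ?_⟩
    obtain ⟨a, rfl⟩ : z ∈ orbit A x := h ▸ trivial
    obtain ⟨b, rfl⟩ : w ∈ orbit A x := h ▸ trivial
    exact ⟨_, (b * a⁻¹).2, show (b * a⁻¹) • a • x = _ by rw [smul_smul, inv_mul_cancel_right]⟩
  by_cases h3 : orbit (Subgroup.center R) x = Set.univ
  · exact ⟨_, fun a _ b hb => Subgroup.mem_center_iff.1 hb a, h3⟩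
  obtain ⟨z, hz⟩ := (Set.ne_univ_iff_exists_notMem _).1 h3
  obtain ⟨g, rfl⟩ := exists_smul_eq R x z
  let A := Subgroup.centralizer (Subgroup.centralizer {g} : Set R)
  have h4 : g ∈ A := fun u hu => (hu g rfl).symm
  refine ⟨A, fun a ha b hb => hb a fun u hu => hu ▸ ha g fun v hv => hv ▸ rfl, ?_⟩
  obtain ⟨m, hm⟩ := h2 (Subgroup.center R)
  obtain ⟨n, hn⟩ := h2 A
  have h5 : 1 < l ^ m := hm ▸ (Set.one_lt_ncard (Set.toFinite _)).2
    ⟨_, mem_orbit x c, _, mem_orbit_self x, h1⟩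
  have h6 : l ^ m < l ^ n := hm ▸ hn ▸ Set.ncard_lt_ncard (Set.ssubset_iff_subset_ne.2
    ⟨by
      rintro _ ⟨u, rfl⟩
      exact ⟨⟨u, Subgroup.center_le_centralizer _ u.2⟩, rfl⟩,
    fun e => hz (e ▸ ⟨⟨g, h4⟩, rfl⟩)⟩)
  rw [Nat.pow_lt_pow_iff_right l1] at h6
  have h7 : m ≠ 0 := fun e => by simp [e] at h5
  refine Set.eq_of_subset_of_ncard_le (Set.subset_univ _) ?_
  rw [Set.ncard_univ, hX, hn]
  exact Nat.pow_le_pow_right l1.le (by omega)

variable {p : ℕ} [hp : Fact p.Prime] {L : Type*} [Field L] [NumberField L] [IsGalois ℚ L]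

theorem hyp_sq {q l : ℕ} (hq : q ≠ 0) (hl : l.Prime) (l2 : l ≠ 2) {h P : ℤ[X]} (hh : h.Monic)
    (irr : Irreducible h) (deg : h.natDegree = 2 * l ^ 2)
    (hW : ∀ z : ℂ, aeval z h = 0 → ‖z‖ ^ 2 = q) {φ : L →+* PadicAlgCl p}
    (ss : ∀ z : PadicAlgCl p, aeval z P = 0 → ‖z‖ ^ 2 = ‖(q : PadicAlgCl p)‖)
    {π : L} (hπ : aeval π h = 0)
    (real : ∀ E : IntermediateField ℚ L, E < ℚ⟮π⟯ → ∀ x ∈ E, ∀ ψ : L →+* ℂ, (ψ x).im = 0) :
    ∃ Φ H, Hyp q (h * P) φ Φ H := by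
  have : Fact l.Prime := ⟨hl⟩
  have l3 : 2 < l := hl.two_le.lt_of_ne' l2
  obtain ⟨κ, hκ, -⟩ := exists_bar (L := L) hq hW
  have q1 : (q : L) ≠ 0 := by exact_mod_cast hq
  have e : h.map (algebraMap ℤ ℚ) = minpoly ℚ π := minpoly.eq_of_irreducible_of_monic
    (hh.irreducible_iff_irreducible_map_fraction_map.1 irr)
    (by rw [aeval_map_algebraMap, hπ]) (hh.map _)
  have hd : (minpoly ℚ π).natDegree = 2 * l ^ 2 := by rw [← e, hh.natDegree_map, deg]
  have ho : ∀ w, w ∈ orbit (L ≃ₐ[ℚ] L) π ↔ aeval w h = 0 := fun w => by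
    refine ⟨?_, fun hw => minpoly.exists_algEquiv_of_root' (K := ℚ) (x := w) (y := π)
      (Algebra.IsAlgebraic.isAlgebraic _) (by rw [← e, aeval_map_algebraMap, hw])⟩
    rintro ⟨τ, rfl⟩
    exact (root_map (τ : L →+* L) _ _).2 hπ
  have hc : (orbit (L ≃ₐ[ℚ] L) π).ncard = 2 * l ^ 2 := by
    have h1 : orbit (L ≃ₐ[ℚ] L) π = (minpoly ℚ π).rootSet L := Set.ext fun w => by
      rw [ho, ← e, mem_rootSet_of_ne (hh.map _).ne_zero, aeval_map_algebraMap]
    rw [h1, ← hd, ← card_rootSet_eq_natDegree (Algebra.IsSeparable.isSeparable ℚ π)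
      (Normal.splits inferInstance π : (map (algebraMap ℚ L) _).Splits), ← Nat.card_coe_set_eq,
      Nat.card_eq_fintype_card]
  have hr : π ^ 2 ≠ q := fun e => by
    have := minpoly.min ℚ π (p := X ^ 2 - C (q : ℚ)) (monic_X_pow_sub_C _ two_ne_zero)
      (by simp [e])
    rw [degree_X_pow_sub_C two_pos, ← natDegree_le_iff_degree_le, hd] at this
    nlinarith
  obtain ⟨Q⟩ : Nonempty (Sylow l (L ≃ₐ[ℚ] L)) := inferInstance
  have odd : Odd (Nat.card (Q : Subgroup (L ≃ₐ[ℚ] L))) := by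
    obtain ⟨n, hn⟩ := Q.isPGroup'.exists_card_eq
    exact hn ▸ (hl.odd_of_ne_two l2).pow
  have half := half_odd hq (hκ π hπ).1 hr odd
  let Φ := orbit (Q : Subgroup (L ≃ₐ[ℚ] L)) π
  have fin : (orbit (L ≃ₐ[ℚ] L) π).Finite := Set.finite_range _
  have sub : Φ ⊆ orbit (L ≃ₐ[ℚ] L) π := orbit_subgroup_subset _ _
  have : Finite Φ := fin.subset sub
  have h1 : Φ.ncard = l ^ 2 := by
    obtain ⟨n, hn⟩ : ∃ n, Φ.ncard = l ^ n := Q.isPGroup'.card_orbit π
    have h2 := dvd_orbit (k := 2) Q π (hc ▸ dvd_mul_left _ _)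
    have h3 := Set.ncard_le_ncard sub fin
    rw [hn, hc] at h3
    rw [show (orbit (Q : Subgroup (L ≃ₐ[ℚ] L)) π).ncard = l ^ n from hn,
      Nat.pow_dvd_pow_iff_le_right hl.one_lt] at h2
    have h4 : l ^ n < l ^ 3 := h3.trans_lt (by
      rw [pow_succ' l 2]
      exact Nat.mul_lt_mul_of_pos_right l3 (by positivity))
    rw [Nat.pow_lt_pow_iff_right hl.one_lt] at h4
    rw [hn, show n = 2 by omega]
  have cv : ∀ w : L, aeval w h = 0 → w ∈ Φ ∨ q / w ∈ Φ := fun w hw => by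
    have inj : Function.Injective fun z : L => q / z := fun z w e =>
      inv_injective (mul_left_cancel₀ q1 (by simpa only [div_eq_mul_inv] using e))
    have h2 : Φ ∪ (fun z => q / z) '' Φ = orbit (L ≃ₐ[ℚ] L) π := by
      refine Set.eq_of_subset_of_ncard_le (Set.union_subset sub ?_) (le_of_eq ?_) fin
      · rintro _ ⟨z, hz, rfl⟩
        have h3 := (ho z).1 (sub hz)
        exact (ho (q / z)).2 ((hκ z h3).2 ▸ (root_map (κ : L →+* L) _ _).2 h3)
      · rw [Set.ncard_union_eq _ (fin.subset sub) ((fin.subset sub).image _),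
          Set.ncard_image_of_injective _ inj, h1, hc, two_mul]
        exact Set.disjoint_right.2 (by
          rintro _ ⟨z, hz, rfl⟩
          exact half z hz)
    refine (h2.ge ((ho w).2 hw)).imp_right ?_
    rintro ⟨z, hz, rfl⟩
    rwa [div_div_cancel₀ q1]
  let ρ := toPermHom (Q : Subgroup (L ≃ₐ[ℚ] L)) Φ
  have : IsPretransitive ρ.range Φ := ⟨fun z w => by
    obtain ⟨g, hg⟩ := exists_smul_eq (Q : Subgroup (L ≃ₐ[ℚ] L)) z w
    exact ⟨⟨ρ g, g, rfl⟩, hg⟩⟩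
  obtain ⟨A, c1, c2⟩ := abelian_trans (R := ρ.range) (X := Φ)
    (Q.isPGroup'.of_surjective _ ρ.rangeRestrict_surjective) h1
  refine ⟨Φ, {a | ∃ ha : a ∈ (Q : Subgroup _), ρ.rangeRestrict ⟨a, ha⟩ ∈ A},
    hyp_odd hq hW ss hπ hr odd (fun a ha => ha.1) ?_ (fun z hz w hw => ?_) cv real⟩
  · rintro a ⟨ha, h2⟩ b ⟨hb, h3⟩ z hz
    exact congrArg (fun u : ρ.range => ((u : Equiv.Perm Φ) ⟨z, hz⟩ : L)) (c1 _ h2 _ h3)
  · obtain ⟨⟨_, g, rfl⟩, h2, h3⟩ := c2 ⟨z, hz⟩ ⟨w, hw⟩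
    exact ⟨g, ⟨g.2, h2⟩, congrArg Subtype.val h3⟩

end Pool.Agent.P.MP_ee618e_ag.TO
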